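import Mathlib

set_option autoImplicit false

open Finset Filter Topology

namespace Pool.Agent.R645.NR

/-- `R_d(s)`: the sum of `v_{i_1} ... v_{i_d}`, `v_i = p_i (1 - p_i)`, over all `d`-element sets of
positive integers with sum `s`. -/
noncomputable def R (p : ℕ → ℝ) (d s : ℕ) : ℝ :=
  ∑ I ∈ (powersetCard d (Icc 1 s)).filter (fun I => ∑ i ∈ I, i = s), ∏ i ∈ I, p i * (1 - p i)

/-- The indices with `p = 0`. -/
def Bad (d n : ℕ) : Prop :=
  ∃ j, 1 ≤ j ∧ 3 * (96 * d) ^ j < n ∧ n ≤ 12 * d * (96 * d) ^ j ∧ ¬ (96 * d) ^ j ∣ n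

open Classical in
/-- The sequence. -/
noncomputable def pp (d : ℕ) (n : ℕ) : ℝ := if Bad d n then 0 else 1 / 2

theorem pp_mem (d n : ℕ) : pp d n ∈ Set.Icc (0 : ℝ) 1 := by
  unfold pp
  split_ifs <;> norm_num

theorem good_of_Ioc {d n j : ℕ} (hd : 3 ≤ d) (h1 : 12 * d * (96 * d) ^ j < n)
    (h2 : n ≤ 3 * (96 * d) ^ (j + 1)) : ¬ Bad d n := by
  rintro ⟨i, hi, h3, h4, -⟩
  rcases le_or_gt i j with h | h
  · have := Nat.pow_le_pow_right (show 0 < 96 * d by omega) h
    have := Nat.mul_le_mul_left (12 * d) this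
    omega
  · have := Nat.pow_le_pow_right (show 0 < 96 * d by omega) (show j + 1 ≤ i from h)
    omega

theorem good_small {d n : ℕ} (hd : 3 ≤ d) (h2 : n ≤ 3 * (96 * d)) : ¬ Bad d n := by
  rintro ⟨i, hi, h3, h4, -⟩
  have := Nat.pow_le_pow_right (show 0 < 96 * d by omega) hi
  rw [pow_one] at this
  omega

theorem good_mult {d n j : ℕ} (hd : 3 ≤ d) (h1 : 3 * (96 * d) ^ j < n)
    (h2 : n ≤ 12 * d * (96 * d) ^ j) (h3 : (96 * d) ^ j ∣ n) : ¬ Bad d n := by
  rintro ⟨i, hi, h4, h5, h6⟩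
  rcases lt_trichotomy i j with h | h | h
  · have h7 := Nat.pow_le_pow_right (show 0 < 96 * d by omega) (show i + 1 ≤ j from h)
    rw [pow_succ] at h7
    nlinarith [Nat.zero_le ((96 * d) ^ i)]
  · subst h
    exact h6 h3
  · have h7 := Nat.pow_le_pow_right (show 0 < 96 * d by omega) (show j + 1 ≤ i from h)
    rw [pow_succ] at h7
    nlinarith [Nat.zero_le ((96 * d) ^ j)]

/-- The choice of the helper element. -/
theorem exists_b {d j s : ℕ} (hd : 3 ≤ d) (h1 : 3 * (96 * d) ^ (j + 1) ≤ s)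
    (h2 : s < 3 * (96 * d) ^ (j + 2)) :
    ∃ b, ¬ Bad d b ∧ 2 * (96 * d) ^ (j + 1) ≤ b ∧ ∀ r, 12 * d * (96 * d) ^ j < r →
      r < 4 * (12 * d * (96 * d) ^ j) →
      b + r < s ∧ ¬ Bad d (s - b - r) ∧ 4 * (12 * d * (96 * d) ^ j) < s - b - r ∧
        s - b - r ≠ b := by
  obtain ⟨u, hu⟩ : ∃ u, u = 12 * d * (96 * d) ^ j := ⟨_, rfl⟩
  obtain ⟨W, hW⟩ : ∃ W, W = (96 * d) ^ (j + 1) := ⟨_, rfl⟩
  have hWu : W = 8 * u := by rw [hW, hu, pow_succ]; ring
  have hu0 : 0 < u := by rw [hu]; positivity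
  have hD : (96 * d) ^ (j + 2) = 96 * d * W := by rw [hW]; ring
  have g1 : ∀ n, u < n → n ≤ 3 * W → ¬ Bad d n := fun n h3 h4 =>
    good_of_Ioc (j := j) hd (by rw [← hu]; exact h3) (by rw [← hW]; exact h4)
  have g2 : ∀ n, 12 * d * W < n → n ≤ 3 * (96 * d * W) → ¬ Bad d n := fun n h3 h4 =>
    good_of_Ioc (j := j + 1) hd (by rw [← hW]; exact h3) (by rw [← hD] at h4; exact h4)
  have g3 : ∀ n, 3 * W < n → n ≤ 12 * d * W → W ∣ n → ¬ Bad d n := fun n h3 h4 h5 =>
    good_mult (j := j + 1) hd (by rw [← hW]; exact h3) (by rw [← hW]; exact h4)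
      (by rw [← hW]; exact h5)
  rw [← hu, ← hW]
  rw [← hW] at h1
  rw [hD] at h2
  have hdW : 3 * W ≤ d * W := Nat.mul_le_mul_right W hd
  have e1 : 12 * d * W = 12 * (d * W) := by ring
  have e2 : 96 * d * W = 96 * (d * W) := by ring
  rw [e1] at g2 g3
  rw [e2] at g2 h2
  by_cases hc : s < 12 * (d * W) + 3 * W
  · obtain ⟨a, ha⟩ : ∃ a, a = s / W := ⟨_, rfl⟩
    have hW0 : 0 < W := by omega
    have hs : W * a + s % W = s := by rw [ha]; exact Nat.div_add_mod s W
    have hr : s % W < W := Nat.mod_lt _ hW0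
    have ha3 : 3 ≤ a := by
      rw [ha]
      exact (Nat.le_div_iff_mul_le hW0).mpr h1
    obtain ⟨a', rfl⟩ : ∃ a', a = a' + 1 := ⟨a - 1, by omega⟩
    have hb : 2 * W ≤ a' * W := Nat.mul_le_mul_right W (by omega)
    have e3 : W * (a' + 1) = a' * W + W := by ring
    rw [e3] at hs
    refine ⟨a' * W, ?_, hb, ?_⟩
    · rcases le_or_gt (a' * W) (3 * W) with h | h
      · exact g1 _ (by omega) h
      · rcases le_or_gt (a' * W) (12 * (d * W)) with h' | h'
        · exact g3 _ h h' (Dvd.intro_left _ rfl)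
        · exact g2 _ h' (by omega)
    · intro r hr1 hr2
      have hn : s - a' * W - r = W + s % W - r := by omega
      rw [hn]
      exact ⟨by omega, g1 _ (by omega) (by omega), by omega, by omega⟩
  · push Not at hc
    refine ⟨2 * W, g1 _ (by omega) (by omega), le_rfl, ?_⟩
    intro r hr1 hr2
    exact ⟨by omega, g2 _ (by omega) (by omega), by omega, by omega⟩

/-- The sum of the small fixed elements. -/
def tt (d : ℕ) : ℕ := ∑ i ∈ Icc 1 (d - 3), i

theorem R_lower_aux {d j s : ℕ} (hd : 3 ≤ d) (h1 : 3 * (96 * d) ^ (j + 1) ≤ s)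
    (h2 : s < 3 * (96 * d) ^ (j + 2)) :
    (12 * d * (96 * d) ^ j : ℝ) * (1 / 4) ^ d ≤ R (pp d) d (s + tt d) := by
  classical
  obtain ⟨b, hb1, hb2, hb3⟩ := exists_b hd h1 h2
  obtain ⟨u, hu⟩ : ∃ u, u = 12 * d * (96 * d) ^ j := ⟨_, rfl⟩
  have hur : (12 * d * (96 * d) ^ j : ℝ) = u := by rw [hu]; push_cast; ring
  rw [hur]
  rw [← hu] at hb3
  have hWu : (96 * d) ^ (j + 1) = 8 * u := by rw [hu, pow_succ]; ring
  rw [hWu] at hb2 h1
  have hu0 : 12 * d ≤ u := by
    rw [hu]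
    exact Nat.le_mul_of_pos_right _ (by positivity)
  let F : ℕ → Finset ℕ := fun r => Icc 1 (d - 3) ∪ {r, b, s - b - r}
  let A : Finset ℕ := Icc (u + 1) (4 * u - 1)
  have hA : ∀ r ∈ A, u < r ∧ r < 4 * u := by
    intro r hr
    rw [mem_Icc] at hr
    omega
  have hcard3 : ∀ r ∈ A, ({r, b, s - b - r} : Finset ℕ).card = 3 := by
    intro r hr
    obtain ⟨h3, h4⟩ := hA r hr
    obtain ⟨h5, h6, h7, h8⟩ := hb3 r h3 h4
    rw [card_insert_of_notMem, card_insert_of_notMem, card_singleton]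
    · simp only [mem_singleton]
      exact fun h => h8 h.symm
    · simp only [mem_insert, mem_singleton, not_or]
      omega
  have hdisj : ∀ r ∈ A, Disjoint (Icc 1 (d - 3)) ({r, b, s - b - r} : Finset ℕ) := by
    intro r hr
    obtain ⟨h3, h4⟩ := hA r hr
    obtain ⟨h5, h6, h7, h8⟩ := hb3 r h3 h4
    rw [Finset.disjoint_left]
    intro x hx hx'
    rw [mem_Icc] at hx
    simp only [mem_insert, mem_singleton] at hx'
    omega
  have hgood : ∀ r ∈ A, ∀ i ∈ F r, ¬ Bad d i := by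
    intro r hr i hi
    obtain ⟨h3, h4⟩ := hA r hr
    obtain ⟨h5, h6, h7, h8⟩ := hb3 r h3 h4
    simp only [F, mem_union, mem_insert, mem_singleton, mem_Icc] at hi
    rcases hi with hi | rfl | rfl | rfl
    · exact good_small hd (by omega)
    · exact good_of_Ioc (j := j) hd (by rw [← hu]; exact h3) (by rw [hWu]; omega)
    · exact hb1
    · exact h6
  have hF : ∀ r ∈ A, F r ∈ (powersetCard d (Icc 1 (s + tt d))).filter
      (fun I => ∑ i ∈ I, i = s + tt d) := by
    intro r hr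
    obtain ⟨h3, h4⟩ := hA r hr
    obtain ⟨h5, h6, h7, h8⟩ := hb3 r h3 h4
    rw [mem_filter, mem_powersetCard]
    refine ⟨⟨?_, ?_⟩, ?_⟩
    · intro x hx
      simp only [F, mem_union, mem_insert, mem_singleton, mem_Icc] at hx
      rw [mem_Icc]
      omega
    · show (Icc 1 (d - 3) ∪ {r, b, s - b - r} : Finset ℕ).card = d
      rw [card_union_of_disjoint (hdisj r hr), hcard3 r hr, Nat.card_Icc]
      omega
    · show ∑ i ∈ (Icc 1 (d - 3) ∪ {r, b, s - b - r} : Finset ℕ), i = s + tt d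
      rw [sum_union (hdisj r hr), sum_insert, sum_insert, sum_singleton]
      · unfold tt
        omega
      · simp only [mem_singleton]
        exact fun h => h8 h.symm
      · simp only [mem_insert, mem_singleton, not_or]
        omega
  have hinj : Set.InjOn F A := by
    intro r hr r' hr' h
    obtain ⟨h3, h4⟩ := hA r hr
    obtain ⟨h5, h6, h7, h8⟩ := hb3 r h3 h4
    obtain ⟨h3', h4'⟩ := hA r' hr'
    have : r' ∈ F r := by
      rw [h]
      simp [F]
    simp only [F, mem_union, mem_insert, mem_singleton, mem_Icc] at this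
    omega
  unfold R
  have hnn : ∀ I ∈ (powersetCard d (Icc 1 (s + tt d))).filter (fun I => ∑ i ∈ I, i = s + tt d),
      (0 : ℝ) ≤ ∏ i ∈ I, pp d i * (1 - pp d i) := by
    intro I _
    refine prod_nonneg fun i _ => ?_
    have := pp_mem d i
    exact mul_nonneg this.1 (by linarith [this.2])
  have hsub : A.image F ⊆ (powersetCard d (Icc 1 (s + tt d))).filter
      (fun I => ∑ i ∈ I, i = s + tt d) := by
    intro I hI
    obtain ⟨r, hr, rfl⟩ := mem_image.mp hI
    exact hF r hr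
  refine le_trans ?_ (sum_le_sum_of_subset_of_nonneg hsub (fun I hI _ => hnn I hI))
  rw [sum_image hinj]
  have hterm : ∀ r ∈ A, ∏ i ∈ F r, pp d i * (1 - pp d i) = (1 / 4 : ℝ) ^ d := by
    intro r hr
    have h3 : ∀ i ∈ F r, pp d i * (1 - pp d i) = (1 / 4 : ℝ) := by
      intro i hi
      unfold pp
      rw [if_neg (hgood r hr i hi)]
      norm_num
    rw [prod_congr rfl h3, prod_const]
    have := hF r hr
    rw [mem_filter, mem_powersetCard] at this
    rw [this.1.2]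
  rw [sum_congr rfl hterm, sum_const, nsmul_eq_mul]
  refine mul_le_mul_of_nonneg_right ?_ (by positivity)
  have : u ≤ A.card := by
    simp only [A, Nat.card_Icc]
    omega
  exact_mod_cast this

theorem R_lower {d s : ℕ} (hd : 3 ≤ d) (hs : 3 * (96 * d) ≤ s) :
    (s : ℝ) / (24 * (96 * d)) * (1 / 4) ^ d ≤ R (pp d) d (s + tt d) := by
  have hD : 1 < 96 * d := by omega
  obtain ⟨L, hL⟩ : ∃ L, L = Nat.log (96 * d) (s / 3) := ⟨_, rfl⟩
  have h3 : s / 3 ≠ 0 := by omega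
  have h1 : (96 * d) ^ L ≤ s / 3 := by rw [hL]; exact Nat.pow_log_le_self _ h3
  have h2 : s / 3 < (96 * d) ^ (L + 1) := by
    rw [hL]; exact Nat.lt_pow_succ_log_self hD _
  have hL1 : 1 ≤ L := by
    rw [hL]
    exact Nat.log_pos hD (by omega)
  obtain ⟨j, rfl⟩ : ∃ j, L = j + 1 := ⟨L - 1, by omega⟩
  have h4 := R_lower_aux (j := j) (s := s) hd (by omega) (by
    show s < 3 * (96 * d) ^ (j + 1 + 1)
    omega)
  refine le_trans (mul_le_mul_of_nonneg_right ?_ (by positivity)) h4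
  have h5 : s < 3 * (96 * d) ^ (j + 1 + 1) := by omega
  have h6 : (s : ℝ) ≤ 3 * (96 * d) ^ (j + 1 + 1) := by exact_mod_cast h5.le
  have hd0 : (0 : ℝ) < d := by exact_mod_cast (by omega : 0 < d)
  rw [div_le_iff₀ (by positivity)]
  calc (s : ℝ) ≤ 3 * (96 * d) ^ (j + 1 + 1) := h6
    _ = 12 * d * (96 * d) ^ j * (24 * (96 * d)) := by
        rw [pow_succ, pow_succ]; ring

theorem summable_main {d : ℕ} (hd : 3 ≤ d) {c : ℝ} (hc : 0 < c) :
    Summable (fun s : ℕ => (s : ℝ) * Real.exp (-c * R (pp d) d s)) := by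
  have hd0 : (0 : ℝ) < d := by exact_mod_cast (by omega : 0 < d)
  obtain ⟨κ, hκ⟩ : ∃ κ : ℝ, κ = 1 / (24 * (96 * d)) * (1 / 4) ^ d := ⟨_, rfl⟩
  have hκ0 : 0 < κ := by rw [hκ]; positivity
  have hr : ‖Real.exp (-(c * κ))‖ < 1 := by
    rw [Real.norm_of_nonneg (Real.exp_pos _).le, Real.exp_lt_one_iff]
    have := mul_pos hc hκ0
    linarith
  have hsum := (summable_pow_mul_geometric_of_norm_lt_one 1 hr).mul_left
    (Real.exp (c * κ * tt d))
  refine Summable.of_norm_bounded_eventually_nat hsum ?_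
  filter_upwards [eventually_ge_atTop (3 * (96 * d) + tt d)] with s hs
  obtain ⟨s', rfl⟩ : ∃ s', s = s' + tt d := ⟨s - tt d, by omega⟩
  have h1 := R_lower (s := s') hd (by omega)
  have h2 : (s' : ℝ) * κ ≤ R (pp d) d (s' + tt d) := by
    refine le_trans (le_of_eq ?_) h1
    rw [hκ]; ring
  rw [Real.norm_of_nonneg (by positivity)]
  have h3 : Real.exp (-c * R (pp d) d (s' + tt d)) ≤
      Real.exp (c * κ * tt d) * Real.exp (-(c * κ)) ^ (s' + tt d) := by
    rw [← Real.exp_nat_mul, ← Real.exp_add]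
    apply Real.exp_le_exp.mpr
    push_cast
    nlinarith [mul_le_mul_of_nonneg_left h2 hc.le]
  calc ((s' + tt d : ℕ) : ℝ) * Real.exp (-c * R (pp d) d (s' + tt d))
      ≤ ((s' + tt d : ℕ) : ℝ) *
        (Real.exp (c * κ * tt d) * Real.exp (-(c * κ)) ^ (s' + tt d)) :=
        mul_le_mul_of_nonneg_left h3 (by positivity)
    _ = _ := by rw [pow_one]; ring

end Pool.Agent.R645.NR
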