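import Mathlib

set_option autoImplicit false

open Finset Filter Topology

namespace Pool.Agent.R645.NR

/-- The `n`-th digit after the point of the base-`b` expansion of `y` (`n ≥ 1`). -/
noncomputable def digit (b : ℕ) (y : ℝ) (n : ℕ) : ℤ := ⌊(b : ℝ) ^ n * y⌋ % b

open Classical in
/-- Normality in base `b`: every word `w` of length `k` starts at a proportion tending to `b^{-k}`
of the positions `1 ≤ n ≤ N`. -/
def NormalInBase (b : ℕ) (y : ℝ) : Prop :=
  ∀ k : ℕ, 1 ≤ k → ∀ w : Fin k → ℕ, (∀ i, w i < b) →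
    Tendsto (fun N : ℕ =>
      (((Icc 1 N).filter (fun n => ∀ i : Fin k, digit b y (n + i) = w i)).card : ℝ) / N)
      atTop (𝓝 ((1 / (b : ℝ)) ^ k))

/-- Absolute normality. -/
def AbsNormal (y : ℝ) : Prop := ∀ b : ℕ, 2 ≤ b → NormalInBase b y

/-- If infinitely often two thirds of the binary digits vanish, the number is not normal. -/
theorem not_normal {y : ℝ} (N : ℕ → ℕ) (hN : Tendsto N atTop atTop)
    (h : ∃ᶠ j in atTop, (2 : ℝ) / 3 * N j ≤ ((Icc 1 (N j)).filter (fun n => digit 2 y n = 0)).card) :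
    ¬ NormalInBase 2 y := by
  intro hn
  have h1 := hn 1 le_rfl (fun _ => 0) (fun _ => by norm_num)
  have h2 := h1.comp hN
  have h3 : ((1 / ((2 : ℕ) : ℝ)) ^ 1) < 2 / 3 := by norm_num
  have h4 := h2.eventually_lt_const h3
  have h5 := hN.eventually_gt_atTop 0
  obtain ⟨j, hj1, hj2, hj3⟩ := (h.and_eventually (h4.and h5)).exists
  simp only [Function.comp_apply] at hj2
  have hpos : (0 : ℝ) < N j := by exact_mod_cast hj3
  rw [div_lt_iff₀ hpos] at hj2
  have h6 : ((Icc 1 (N j)).filter (fun n => ∀ i : Fin 1, digit 2 y (n + i) = ((0 : ℕ) : ℤ))).card =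
      ((Icc 1 (N j)).filter (fun n => digit 2 y n = 0)).card := by
    congr 1
    apply filter_congr
    intro n _
    simp
  have h7 : ((((Icc 1 (N j)).filter
      (fun n => ∀ i : Fin 1, digit 2 y (n + i) = ((0 : ℕ) : ℤ))).card : ℕ) : ℝ) <
      2 / 3 * N j := by
    convert hj2
  rw [h6] at h7
  linarith

/-- The number with binary digits `a`. -/
noncomputable def num (a : ℕ → Bool) : ℝ := ∑' n : ℕ, (if a (n + 1) then (1 : ℝ) else 0) / 2 ^ (n + 1)

theorem summable_num (a : ℕ → Bool) :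
    Summable (fun n : ℕ => (if a (n + 1) then (1 : ℝ) else 0) / 2 ^ (n + 1)) := by
  refine Summable.of_nonneg_of_le (fun n => by positivity) (fun n => ?_)
    (summable_geometric_two' 1)
  have : (if a (n + 1) then (1 : ℝ) else 0) ≤ 1 := by split_ifs <;> norm_num
  calc (if a (n + 1) then (1 : ℝ) else 0) / 2 ^ (n + 1) ≤ 1 / 2 ^ (n + 1) :=
        div_le_div_of_nonneg_right this (by positivity)
    _ = 1 / 2 / 2 ^ n := by rw [pow_succ]; field_simp

theorem tail_le (a : ℕ → Bool) (L : ℕ) :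
    ∑' n : ℕ, (if a (n + L + 1) then (1 : ℝ) else 0) / 2 ^ (n + L + 1) ≤ 1 / 2 ^ L := by
  have h1 : Summable (fun n : ℕ => (if a (n + L + 1) then (1 : ℝ) else 0) / 2 ^ (n + L + 1)) :=
    (summable_nat_add_iff (f := fun n : ℕ => (if a (n + 1) then (1 : ℝ) else 0) / 2 ^ (n + 1))
      L).mpr (summable_num a)
  have h2 := (hasSum_geometric_two' (1 / 2 ^ L : ℝ))
  rw [← h2.tsum_eq]
  refine h1.tsum_le_tsum (fun n => ?_) h2.summable
  have : (if a (n + L + 1) then (1 : ℝ) else 0) ≤ 1 := by split_ifs <;> norm_num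
  calc (if a (n + L + 1) then (1 : ℝ) else 0) / 2 ^ (n + L + 1) ≤ 1 / 2 ^ (n + L + 1) :=
        div_le_div_of_nonneg_right this (by positivity)
    _ = 1 / 2 ^ L / 2 / 2 ^ n := by rw [pow_succ, pow_add]; field_simp

/-- If the digits vanish on `(A, B]`, then `num a` is a dyadic rational plus a tiny error. -/
theorem num_approx (a : ℕ → Bool) {A B : ℕ} (hAB : A ≤ B)
    (h : ∀ n, A < n → n ≤ B → a n = false) :
    ∃ z : ℕ, (z : ℝ) / 2 ^ A ≤ num a ∧ num a ≤ (z : ℝ) / 2 ^ A + 1 / 2 ^ B := by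
  have h1 := (summable_num a).sum_add_tsum_nat_add B
  have hz : ∃ z : ℕ, ∑ n ∈ range B, (if a (n + 1) then (1 : ℝ) else 0) / 2 ^ (n + 1) =
      (z : ℝ) / 2 ^ A := by
    refine ⟨∑ n ∈ range A, (if a (n + 1) then 2 ^ (A - (n + 1)) else 0), ?_⟩
    rw [eq_div_iff (by positivity), sum_mul]
    push_cast
    rw [← sum_subset (range_mono hAB)]
    · refine sum_congr rfl fun n hn => ?_
      rw [mem_range] at hn
      split_ifs with h2
      · rw [one_div, inv_mul_eq_div, div_eq_iff (by positivity), ← pow_add]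
        congr 1
        omega
      · simp
    · intro n hn hn'
      rw [mem_range] at hn hn'
      rw [h (n + 1) (by omega) (by omega)]
      simp
  obtain ⟨z, hz⟩ := hz
  rw [hz] at h1
  refine ⟨z, ?_, ?_⟩
  · unfold num
    rw [← h1]
    have : 0 ≤ ∑' n : ℕ, (if a (n + B + 1) then (1 : ℝ) else 0) / 2 ^ (n + B + 1) :=
      tsum_nonneg fun n => by positivity
    linarith
  · unfold num
    rw [← h1]
    have := tail_le a B
    linarith

theorem num_le_one (a : ℕ → Bool) : num a ≤ 1 := by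
  have := tail_le a 0
  simpa [num] using this

theorem num_nonneg (a : ℕ → Bool) : 0 ≤ num a := tsum_nonneg fun n => by positivity

/-- The power is a dyadic rational plus a tiny error. -/
theorem pow_approx (a : ℕ → Bool) {A B d : ℕ} (hAB : A ≤ B)
    (h : ∀ n, A < n → n ≤ B → a n = false) :
    ∃ z : ℕ, (z : ℝ) / 2 ^ (d * A) ≤ num a ^ d ∧
      num a ^ d ≤ (z : ℝ) / 2 ^ (d * A) + d / 2 ^ B := by
  obtain ⟨z, h1, h2⟩ := num_approx a hAB h
  have h0 : (0 : ℝ) ≤ (z : ℝ) / 2 ^ A := by positivity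
  refine ⟨z ^ d, ?_, ?_⟩
  · have := pow_le_pow_left₀ h0 h1 d
    rw [div_pow, ← pow_mul, mul_comm A d] at this
    push_cast
    exact this
  · have h3 := abs_pow_sub_pow_le (num a) ((z : ℝ) / 2 ^ A) d
    have h4 : |num a - (z : ℝ) / 2 ^ A| ≤ 1 / 2 ^ B := by
      rw [abs_of_nonneg (by linarith)]
      linarith
    have h5 : max |num a| |(z : ℝ) / 2 ^ A| ≤ 1 := by
      rw [abs_of_nonneg (num_nonneg a), abs_of_nonneg h0]
      exact max_le (num_le_one a) (h1.trans (num_le_one a))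
    have h6 : max |num a| |(z : ℝ) / 2 ^ A| ^ (d - 1) ≤ 1 :=
      pow_le_one₀ (le_max_of_le_left (abs_nonneg _)) h5
    have h7 : |num a - (z : ℝ) / 2 ^ A| * d * max |num a| |(z : ℝ) / 2 ^ A| ^ (d - 1) ≤
        1 / 2 ^ B * d * 1 := by
      gcongr
    have h8 := (le_abs_self _).trans (h3.trans h7)
    rw [div_pow, ← pow_mul, mul_comm A d] at h8
    push_cast
    rw [mul_one, one_div, inv_mul_eq_div] at h8
    linarith

/-- A long run of zero digits. -/
theorem digit_zero {y : ℝ} {m g n d B : ℕ} {z : ℕ} (h1 : (z : ℝ) / 2 ^ m ≤ y)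
    (h2 : y ≤ (z : ℝ) / 2 ^ m + d / 2 ^ B) (hg : m + g + d ≤ B) (hn : m < n) (hn' : n ≤ m + g) :
    digit 2 y n = 0 := by
  obtain ⟨i, rfl⟩ : ∃ i, n = m + 1 + i := ⟨n - m - 1, by omega⟩
  have hfl : ⌊((2 : ℕ) : ℝ) ^ (m + 1 + i) * y⌋ = 2 * ((z : ℤ) * 2 ^ i) := by
    rw [Int.floor_eq_iff]
    push_cast
    have h3 : (2 : ℝ) ^ (m + 1 + i) * ((z : ℝ) / 2 ^ m) = 2 * ((z : ℝ) * 2 ^ i) := by
      rw [pow_add, pow_add]
      field_simp
    constructor
    · rw [← h3]
      exact mul_le_mul_of_nonneg_left h1 (by positivity)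
    · have h4 : (2 : ℝ) ^ (m + 1 + i) * y ≤ 2 ^ (m + 1 + i) * ((z : ℝ) / 2 ^ m + d / 2 ^ B) :=
        mul_le_mul_of_nonneg_left h2 (by positivity)
      rw [mul_add, h3] at h4
      refine lt_of_le_of_lt h4 ?_
      have h5 : (2 : ℝ) ^ (m + 1 + i) * (d / 2 ^ B) < 1 := by
        rw [mul_div_assoc', div_lt_one (by positivity)]
        have h6 : (d : ℝ) < 2 ^ d := by exact_mod_cast Nat.lt_two_pow_self
        calc (2 : ℝ) ^ (m + 1 + i) * d < 2 ^ (m + 1 + i) * 2 ^ d :=
              mul_lt_mul_of_pos_left h6 (by positivity)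
          _ = 2 ^ (m + 1 + i + d) := by rw [← pow_add]
          _ ≤ 2 ^ B := pow_le_pow_right₀ (by norm_num) (by omega)
      linarith
  unfold digit
  rw [hfl]
  simp

/-- The digits of the power. -/
theorem zeros_pow (a : ℕ → Bool) {W d : ℕ} (hd : 3 ≤ d) (hW : d ≤ W)
    (h : ∀ n, 3 * W < n → n ≤ 12 * d * W → a n = false) :
    (2 : ℝ) / 3 * ((12 * d * W : ℕ) : ℝ) ≤
      ((Icc 1 (12 * d * W)).filter (fun n => digit 2 (num a ^ d) n = 0)).card := by
  have hAB : 3 * W ≤ 12 * d * W := Nat.mul_le_mul_right W (by omega)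
  obtain ⟨z, h1, h2⟩ := pow_approx (d := d) a hAB h
  obtain ⟨T, hT⟩ : ∃ T, T = d * W := ⟨_, rfl⟩
  have e1 : d * (3 * W) = 3 * T := by rw [hT]; ring
  have e2 : 12 * d * W = 12 * T := by rw [hT]; ring
  have hTW : 3 * W ≤ T := by rw [hT]; exact Nat.mul_le_mul_right W hd
  rw [e1] at h1
  rw [e1, e2] at h2
  rw [e2]
  have hsub : Icc (3 * T + 1) (3 * T + 8 * T) ⊆
      (Icc 1 (12 * T)).filter (fun n => digit 2 (num a ^ d) n = 0) := by
    intro n hn
    rw [mem_Icc] at hn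
    rw [mem_filter, mem_Icc]
    exact ⟨by omega, digit_zero (g := 8 * T) h1 h2 (by omega) (by omega) (by omega)⟩
  have hc := card_le_card hsub
  rw [Nat.card_Icc] at hc
  have h3 : 8 * T ≤ ((Icc 1 (12 * T)).filter (fun n => digit 2 (num a ^ d) n = 0)).card := by
    omega
  have h4 : ((8 * T : ℕ) : ℝ) ≤
      ((Icc 1 (12 * T)).filter (fun n => digit 2 (num a ^ d) n = 0)).card := by exact_mod_cast h3
  push_cast at h4 ⊢
  linarith

end Pool.Agent.R645.NR
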