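import Pool.Agent.R645.NR.Comb
import Pool.Agent.R645.NR.Digits

set_option autoImplicit false

open Finset Filter Topology MeasureTheory ProbabilityTheory

namespace Pool.Agent.R645.NR

universe u

/-- Independent `{0,1}`-valued random variables with `P(ξ_n = 1) = p_n`. -/
structure Model (p : ℕ → ℝ) {Ω : Type u} [MeasurableSpace Ω] (μ : Measure Ω)
    (ξ : ℕ → Ω → Bool) : Prop where
  prob : IsProbabilityMeasure μ
  meas : ∀ n, Measurable (ξ n)
  law : ∀ n, μ {ω | ξ n ω = true} = ENNReal.ofReal (p n)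
  indep : iIndepFun ξ μ

/-- The random number `∑_{n ≥ 1} ξ_n 2^{-n}`. -/
noncomputable def X {Ω : Type u} (ξ : ℕ → Ω → Bool) (ω : Ω) : ℝ := num (fun n => ξ n ω)

/-- The helper set of level `j`. -/
def B (d j : ℕ) : Finset ℕ := (Icc 4 (12 * d)).image (fun i => i * (96 * d) ^ (j + 1))

theorem mem_B {d j n : ℕ} : n ∈ B d j ↔ ∃ i, (4 ≤ i ∧ i ≤ 12 * d) ∧ i * (96 * d) ^ (j + 1) = n := by
  simp [B]

theorem B_bounds {d j n : ℕ} (hd : 3 ≤ d) (h : n ∈ B d j) :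
    3 * (96 * d) ^ (j + 1) < n ∧ n ≤ 12 * d * (96 * d) ^ (j + 1) := by
  obtain ⟨i, ⟨h1, h2⟩, rfl⟩ := mem_B.mp h
  have h3 : 0 < (96 * d) ^ (j + 1) := by positivity
  exact ⟨Nat.mul_lt_mul_of_pos_right h1 h3, Nat.mul_le_mul_right _ h2⟩

theorem B_good {d j n : ℕ} (hd : 3 ≤ d) (h : n ∈ B d j) : ¬ Bad d n := by
  obtain ⟨h1, h2⟩ := B_bounds hd h
  obtain ⟨i, -, rfl⟩ := mem_B.mp h
  exact good_mult hd h1 h2 (Dvd.intro_left _ rfl)

theorem B_disjoint {d i j : ℕ} (hd : 3 ≤ d) (hij : i ≠ j) : Disjoint (B d i) (B d j) := by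
  rw [Finset.disjoint_left]
  intro n h1 h2
  obtain ⟨h3, h4⟩ := B_bounds hd h1
  obtain ⟨h5, h6⟩ := B_bounds hd h2
  rcases lt_or_gt_of_ne hij with h | h
  · have h7 := Nat.pow_le_pow_right (show 0 < 96 * d by omega) (show i + 1 + 1 ≤ j + 1 by omega)
    rw [pow_succ] at h7
    nlinarith [Nat.zero_le ((96 * d) ^ (i + 1))]
  · have h7 := Nat.pow_le_pow_right (show 0 < 96 * d by omega) (show j + 1 + 1 ≤ i + 1 by omega)
    rw [pow_succ] at h7
    nlinarith [Nat.zero_le ((96 * d) ^ (j + 1))]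

theorem B_card (d j : ℕ) : (B d j).card ≤ 12 * d := by
  refine card_image_le.trans ?_
  rw [Nat.card_Icc]
  omega

/-- Deterministic part. -/
theorem zero_of {d j : ℕ} (a : ℕ → Bool) (h1 : ∀ n, Bad d n → a n = false)
    (h2 : ∀ n ∈ B d j, a n = false) (n : ℕ) (h3 : 3 * (96 * d) ^ (j + 1) < n)
    (h4 : n ≤ 12 * d * (96 * d) ^ (j + 1)) : a n = false := by
  by_cases hb : Bad d n
  · exact h1 n hb
  · have hdvd : (96 * d) ^ (j + 1) ∣ n := by
      by_contra hc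
      exact hb ⟨j + 1, by omega, h3, h4, hc⟩
    obtain ⟨i, rfl⟩ := hdvd
    apply h2
    rw [mem_B]
    refine ⟨i, ⟨?_, ?_⟩, mul_comm _ _⟩
    · rw [mul_comm] at h3
      exact Nat.lt_of_mul_lt_mul_left h3
    · rw [mul_comm (12 * d)] at h4
      rcases Nat.eq_zero_or_pos ((96 * d) ^ (j + 1)) with h | h
      · rw [h] at h3
        simp at h3
      · exact Nat.le_of_mul_le_mul_left h4 h

section
variable {Ω : Type u} [MeasurableSpace Ω] {μ : Measure Ω} {ξ : ℕ → Ω → Bool} {d : ℕ}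

theorem Model.ae_bad (h : Model (pp d) μ ξ) : ∀ᵐ ω ∂μ, ∀ n, Bad d n → ξ n ω = false := by
  rw [ae_all_iff]
  intro n
  by_cases hb : Bad d n
  · have h1 := h.law n
    rw [pp, if_pos hb, ENNReal.ofReal_zero] at h1
    have h2 : ∀ᵐ ω ∂μ, ¬ ξ n ω = true := by
      rw [ae_iff]
      simpa using h1
    filter_upwards [h2] with ω hω _
    simpa using hω
  · exact Filter.Eventually.of_forall fun ω h3 => absurd h3 hb

/-- The event that all helper digits of level `j` vanish. -/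
def K (ξ : ℕ → Ω → Bool) (d j : ℕ) : Set Ω := ⋂ n ∈ B d j, ξ n ⁻¹' {false}

theorem Model.measurable_K (h : Model (pp d) μ ξ) (j : ℕ) : MeasurableSet (K ξ d j) := by
  unfold K
  exact Finset.measurableSet_biInter _ fun n _ => h.meas n (measurableSet_singleton _)

theorem Model.law_false (h : Model (pp d) μ ξ) (hd : 3 ≤ d) {n j : ℕ} (hn : n ∈ B d j) :
    μ (ξ n ⁻¹' {false}) = ENNReal.ofReal (1 / 2) := by
  have := h.prob
  have h1 : ξ n ⁻¹' {false} = {ω | ξ n ω = true}ᶜ := by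
    ext ω
    simp
  have h2 : MeasurableSet {ω | ξ n ω = true} := h.meas n (measurableSet_singleton true)
  rw [h1, prob_compl_eq_one_sub h2, h.law n, pp, if_neg (B_good hd hn), ← ENNReal.ofReal_one,
    ← ENNReal.ofReal_sub _ (by norm_num)]
  norm_num

theorem Model.K_inter (h : Model (pp d) μ ξ) (T : Finset ℕ) :
    μ (⋂ j ∈ T, K ξ d j) = ∏ n ∈ T.biUnion (B d), μ (ξ n ⁻¹' {false}) := by
  have h1 : (⋂ j ∈ T, K ξ d j) = ⋂ n ∈ T.biUnion (B d), ξ n ⁻¹' {false} := by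
    ext ω
    simp only [K, Set.mem_iInter, Finset.mem_biUnion]
    constructor
    · rintro h2 n ⟨j, hj, hn⟩
      exact h2 j hj n hn
    · intro h2 j hj n hn
      exact h2 n ⟨j, hj, hn⟩
  rw [h1]
  exact h.indep.measure_inter_preimage_eq_mul _ (fun n _ => measurableSet_singleton _)

theorem Model.K_law (h : Model (pp d) μ ξ) (j : ℕ) :
    μ (K ξ d j) = ∏ n ∈ B d j, μ (ξ n ⁻¹' {false}) := by
  have := h.K_inter {j}
  simpa using this

theorem Model.K_indep (h : Model (pp d) μ ξ) (hd : 3 ≤ d) : iIndepSet (K ξ d) μ := by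
  rw [iIndepSet_iff_meas_biInter (fun j => h.measurable_K j)]
  intro T
  rw [h.K_inter T, prod_biUnion]
  · exact prod_congr rfl fun j _ => (h.K_law j).symm
  · intro i _ j _ hij
    exact B_disjoint hd hij

theorem Model.frequently (h : Model (pp d) μ ξ) (hd : 3 ≤ d) :
    ∀ᵐ ω ∂μ, ∃ᶠ j in atTop, ω ∈ K ξ d j := by
  have := h.prob
  have h1 : μ (limsup (K ξ d) atTop) = 1 := by
    refine measure_limsup_eq_one (fun j => h.measurable_K j) (h.K_indep hd) ?_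
    have h2 : ∀ j, ENNReal.ofReal (1 / 2) ^ (12 * d) ≤ μ (K ξ d j) := by
      intro j
      rw [h.K_law j, prod_congr rfl (fun n hn => h.law_false hd hn), prod_const]
      refine pow_le_pow_right_of_le_one' ?_ (B_card d j)
      rw [← ENNReal.ofReal_one]
      exact ENNReal.ofReal_le_ofReal (by norm_num)
    rw [eq_top_iff]
    refine le_trans ?_ (ENNReal.tsum_le_tsum h2)
    rw [ENNReal.tsum_const_eq_top_of_ne_zero]
    exact pow_ne_zero _ (by simp)
  have h2 : ∀ᵐ ω ∂μ, ω ∈ limsup (K ξ d) atTop := by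
    rw [← prob_compl_eq_zero_iff₀] at h1
    · exact mem_ae_iff.mpr h1
    · exact (MeasurableSet.measurableSet_limsup fun j => h.measurable_K j).nullMeasurableSet
  filter_upwards [h2] with ω hω
  rwa [mem_limsup_iff_frequently_mem] at hω

theorem Model.main (h : Model (pp d) μ ξ) (hd : 3 ≤ d) :
    ∀ᵐ ω ∂μ, ¬ NormalInBase 2 (X ξ ω ^ d) := by
  filter_upwards [h.ae_bad, h.frequently hd] with ω h1 h2
  refine not_normal (fun j => 12 * d * (96 * d) ^ (j + 1)) ?_ ?_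
  · refine tendsto_atTop_mono (f := fun j => j) (fun j => ?_) tendsto_id
    have h3 : j + 1 < (96 * d) ^ (j + 1) := Nat.lt_pow_self (by omega)
    have h4 : (96 * d) ^ (j + 1) ≤ 12 * d * (96 * d) ^ (j + 1) :=
      Nat.le_mul_of_pos_left _ (by omega)
    omega
  · refine h2.mono fun j hj => ?_
    have hj' : ∀ n ∈ B d j, ξ n ω = false := by
      intro n hn
      simp only [K, Set.mem_iInter] at hj
      exact hj n hn
    refine zeros_pow (fun n => ξ n ω) hd ?_ (zero_of _ h1 hj')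
    calc d ≤ 96 * d := by omega
      _ = (96 * d) ^ 1 := (pow_one _).symm
      _ ≤ (96 * d) ^ (j + 1) := Nat.pow_le_pow_right (by omega) (by omega)

end

/-- Models exist. -/
theorem exists_model (p : ℕ → ℝ) (hp : ∀ n, p n ∈ Set.Icc (0 : ℝ) 1) :
    ∃ (Ω : Type) (_ : MeasurableSpace Ω) (μ : Measure Ω) (ξ : ℕ → Ω → Bool), Model p μ ξ := by
  obtain ⟨Ω, mΩ, P, ξ, h1, h2, h3, h4⟩ := exists_hasLaw_indepFun (fun _ : ℕ => Bool)
    (fun n => bernoulliMeasure true false (⟨p n, hp n⟩ : unitInterval))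
  refine ⟨Ω, mΩ, P, ξ, h4, h1, fun n => ?_, h3⟩
  have h5 := (h2 n).map_eq
  have h6 : P {ω | ξ n ω = true} = (P.map (ξ n)) {true} := by
    rw [Measure.map_apply (h1 n) (measurableSet_singleton _)]
    rfl
  rw [h6, h5, bernoulliMeasure_apply_of_mem_of_notMem _ (measurableSet_singleton _) (by simp)
    (by simp)]
  rw [ENNReal.ofReal, ENNReal.coe_inj]
  ext
  rw [Real.coe_toNNReal _ (hp n).1]
  rfl

/-- Q1 of the problem. -/
def Q1 : Prop :=
  ∀ d : ℕ, 2 ≤ d → ∃ c : ℝ, 0 < c ∧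
    ∀ p : ℕ → ℝ, (∀ n, p n ∈ Set.Icc (0 : ℝ) 1) → ∀ P : Polynomial ℝ, P.natDegree = d →
      Summable (fun s : ℕ => (s : ℝ) * Real.exp (-c * R p d s)) →
        ∀ (Ω : Type) [MeasurableSpace Ω] (μ : Measure Ω) (ξ : ℕ → Ω → Bool), Model p μ ξ →
          ∀ᵐ ω ∂μ, AbsNormal (P.eval (X ξ ω))

theorem final1 (d : ℕ) (hd : 3 ≤ d) :
    ∃ p : ℕ → ℝ, (∀ n, p n ∈ Set.Icc (0 : ℝ) 1) ∧
      (∀ c : ℝ, 0 < c → Summable (fun s : ℕ => (s : ℝ) * Real.exp (-c * R p d s))) ∧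
      (∀ (Ω : Type u) [MeasurableSpace Ω] (μ : Measure Ω) (ξ : ℕ → Ω → Bool), Model p μ ξ →
        ∀ᵐ ω ∂μ, ¬ NormalInBase 2 (X ξ ω ^ d)) ∧
      ∃ (Ω : Type) (_ : MeasurableSpace Ω) (μ : Measure Ω) (ξ : ℕ → Ω → Bool), Model p μ ξ :=
  ⟨pp d, pp_mem d, fun _ hc => summable_main hd hc, fun _ _ _ _ h => h.main hd,
    exists_model _ (pp_mem d)⟩

theorem final2 : ¬ Q1 := by
  intro h
  obtain ⟨c, hc, h1⟩ := h 3 (by norm_num)
  obtain ⟨Ω, mΩ, μ, ξ, hM⟩ := exists_model (pp 3) (pp_mem 3)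
  have h2 := h1 (pp 3) (pp_mem 3) (Polynomial.X ^ 3) (by simp) (summable_main le_rfl hc) Ω μ ξ hM
  have h3 := hM.main le_rfl
  have := hM.prob
  obtain ⟨ω, h4, h5⟩ := (h2.and h3).exists
  apply h5
  have := h4 2 le_rfl
  simpa using this

end Pool.Agent.R645.NR
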